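import Mathlib

namespace Pool.Agent.Results.MP_8fbeef_co.DominatingPath

open SimpleGraph

/-- `D` is a dominating set of `G`: every vertex outside `D` has a neighbour in `D`. -/
def IsDominating {V : Type*} (G : SimpleGraph V) (D : Set V) : Prop :=
  ∀ v, v ∉ D → ∃ u ∈ D, G.Adj v u

/-- The domination number: the least size of a (finite) dominating set. -/
noncomputable def dominationNumber {V : Type*} (G : SimpleGraph V) : ℕ :=
  sInf {k | ∃ D : Finset V, IsDominating G (D : Set V) ∧ D.card = k}

/-- `G` is `k`-`(γ, r)`-critical: `γ(G) = k` and `γ(G + uv) < k` for every pair of distinct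
nonadjacent vertices `u, v` at distance at most `r`. -/
def IsLocalCritical {V : Type*} (G : SimpleGraph V) (k r : ℕ) : Prop :=
  dominationNumber G = k ∧
    ∀ u v : V, u ≠ v → ¬ G.Adj u v → G.edist u v ≤ r →
      dominationNumber (G ⊔ SimpleGraph.edge u v) < k

/-- `G` contains a dominating path: a path whose vertex set is a dominating set of `G`. -/
def HasDominatingPath {V : Type*} (G : SimpleGraph V) : Prop :=
  ∃ (a b : V) (p : G.Walk a b), p.IsPath ∧ IsDominating G {v | v ∈ p.support}

variable {V : Type*} {G : SimpleGraph V}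

theorem append_isPath {u v w : V} {p : G.Walk u v} {q : G.Walk v w} (hp : p.IsPath)
    (hq : q.IsPath) (h : ∀ x ∈ p.support, x ∈ q.support → x = v) : (p.append q).IsPath := by
  rw [Walk.isPath_def, Walk.support_append, List.nodup_append]
  have hq' := hq.support_nodup
  rw [← Walk.cons_tail_support] at hq'
  refine ⟨hp.support_nodup, (List.nodup_cons.1 hq').2, ?_⟩
  intro x hx y hy hxy
  subst hxy
  have h1 : x = v := h x hx (List.mem_of_mem_tail hy)
  subst h1
  exact (List.nodup_cons.1 hq').1 hy

/-- first hit of a set -/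
theorem first_hit (S : Set V) {b a : V} (R : G.Walk b a) (ha : a ∈ S) :
    ∃ y, y ∈ S ∧ ∃ R' : G.Walk b y, R'.IsPath ∧ (∀ z ∈ R'.support, z ∈ R.support) ∧
      ∀ z ∈ R'.support, z ∈ S → z = y := by
  classical
  induction R with
  | nil =>
    refine ⟨_, ha, Walk.nil, Walk.IsPath.nil, fun z hz => hz, fun z hz _ => by simpa using hz⟩
  | @cons b b1 a h R1 ih =>
    by_cases hb : b ∈ S
    · refine ⟨b, hb, Walk.nil, Walk.IsPath.nil, fun z hz => ?_, fun z hz _ => by simpa using hz⟩
      have : z = b := by simpa using hz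
      subst this
      simp
    · obtain ⟨y, hy, R', hR', hsub, hS⟩ := ih ha
      refine ⟨y, hy, (Walk.cons h R').bypass, Walk.bypass_isPath _, ?_, ?_⟩
      · intro z hz
        have h1 := Walk.support_bypass_subset_support _ hz
        rw [Walk.support_cons, List.mem_cons] at h1 ⊢
        rcases h1 with h1 | h1
        · exact Or.inl h1
        · exact Or.inr (hsub z h1)
      · intro z hz hzS
        have h1 := Walk.support_bypass_subset_support _ hz
        rw [Walk.support_cons, List.mem_cons] at h1
        rcases h1 with h1 | h1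
        · subst h1; exact absurd hzS hb
        · exact hS z h1 hzS

theorem start_not_mem_dropUntil [DecidableEq V] {s a y : V} {P : G.Walk s a} (hP : P.IsPath)
    (hy : y ∈ P.support) (hys : y ≠ s) : s ∉ (P.dropUntil y hy).support := by
  intro hs
  have h1 := P.take_spec hy
  have h2 : ((P.takeUntil y hy).append (P.dropUntil y hy)).IsPath := by rw [h1]; exact hP
  rw [Walk.isPath_def, Walk.support_append, List.nodup_append] at h2
  have h3 := h2.2.2 s (Walk.start_mem_support _) s
  rw [← Walk.cons_tail_support, List.mem_cons] at hs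
  rcases hs with hs | hs
  · exact hys hs.symm
  · exact h3 hs rfl

theorem whitney_step [DecidableEq V] {s a b y : V} (h : G.Adj b s) (hba : b ≠ a) {P Q : G.Walk s a}
    (hP : P.IsPath) (hQ : Q.IsPath)
    (hPQ : ∀ z ∈ P.support, z ∈ Q.support → z = a ∨ z = s)
    (hy : y ∈ P.support) (hys : y ≠ s) {R : G.Walk b y} (hR : R.IsPath)
    (hRP : ∀ z ∈ R.support, z ∈ P.support → z = y)
    (hRQ : ∀ z ∈ R.support, z ∈ Q.support → z = y) :
    ∃ P1 Q1 : G.Walk b a, P1.IsPath ∧ Q1.IsPath ∧
      ∀ z ∈ P1.support, z ∈ Q1.support → z = a ∨ z = b := by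
  have hbQ : b ∉ Q.support := by
    intro hb
    have h1 := hRQ b (Walk.start_mem_support _) hb
    subst h1
    rcases hPQ b hy hb with h2 | h2
    · exact hba h2
    · exact hys h2
  have hsub := P.support_dropUntil_subset_support hy
  refine ⟨R.append (P.dropUntil y hy), Walk.cons h Q, ?_, ?_, ?_⟩
  · exact append_isPath hR (hP.dropUntil hy) (fun x hx hx' => hRP x hx (hsub hx'))
  · rw [Walk.cons_isPath_iff]
    exact ⟨hQ, hbQ⟩
  · intro z hz hz'
    rw [Walk.support_cons, List.mem_cons] at hz'
    rcases hz' with hz' | hz'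
    · exact Or.inr hz'
    · rw [Walk.mem_support_append_iff] at hz
      rcases hz with hz | hz
      · have h1 := hRQ z hz hz'
        subst h1
        rcases hPQ z hy hz' with h2 | h2
        · exact Or.inl h2
        · exact absurd h2 hys
      · rcases hPQ z (hsub hz) hz' with h2 | h2
        · exact Or.inl h2
        · subst h2
          exact absurd hz (start_not_mem_dropUntil hP hy hys)

theorem whitney {b a : V} (p : G.Walk b a) (hp : p.IsPath)
    (hsep : ∀ x, x ≠ a → x ≠ b → ∃ q : G.Walk b a, x ∉ q.support) :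
    ∃ P Q : G.Walk b a, P.IsPath ∧ Q.IsPath ∧
      ∀ z ∈ P.support, z ∈ Q.support → z = a ∨ z = b := by
  classical
  induction p with
  | nil =>
    exact ⟨Walk.nil, Walk.nil, Walk.IsPath.nil, Walk.IsPath.nil, fun z hz _ => by
      left; simpa using hz⟩
  | @cons b s a h p' ih =>
    rw [Walk.cons_isPath_iff] at hp
    obtain ⟨hp', hb⟩ := hp
    have hba : b ≠ a := by
      rintro rfl
      exact hb (Walk.end_mem_support _)
    by_cases hsa : s = a
    · subst hsa
      refine ⟨Walk.cons h Walk.nil, Walk.cons h Walk.nil, ?_, ?_, ?_⟩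
      · rw [Walk.cons_isPath_iff]; exact ⟨Walk.IsPath.nil, by simpa using hba⟩
      · rw [Walk.cons_isPath_iff]; exact ⟨Walk.IsPath.nil, by simpa using hba⟩
      · intro z hz _
        have : z = b ∨ z = s := by simpa using hz
        exact this.symm
    have hns : ∀ x, x ≠ a → x ≠ s → ∃ q : G.Walk s a, x ∉ q.support := by
      intro x hxa hxs
      by_cases hxb : x = b
      · subst hxb; exact ⟨p', hb⟩
      · obtain ⟨q, hq⟩ := hsep x hxa hxb
        refine ⟨Walk.cons h.symm q, ?_⟩
        rw [Walk.support_cons, List.mem_cons]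
        rintro (h1 | h1)
        · exact hxs h1
        · exact hq h1
    obtain ⟨P, Q, hP, hQ, hPQ⟩ := ih hp' hns
    obtain ⟨R, hR⟩ := hsep s hsa h.ne'
    obtain ⟨y, hyS, R', hR', hsub, hS⟩ := first_hit {z | z ∈ P.support ∨ z ∈ Q.support} R
      (Or.inl (Walk.end_mem_support _))
    have hys : y ≠ s := by
      rintro rfl
      exact hR (hsub y (Walk.end_mem_support _))
    rcases hyS with hy | hy
    · exact whitney_step h hba hP hQ hPQ hy hys hR' (fun z hz hz' => hS z hz (Or.inl hz'))
        (fun z hz hz' => hS z hz (Or.inr hz'))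
    · exact whitney_step h hba hQ hP (fun z hz hz' => hPQ z hz' hz) hy hys hR'
        (fun z hz hz' => hS z hz (Or.inr hz')) (fun z hz hz' => hS z hz (Or.inl hz'))

theorem three_step [DecidableEq V] {b a c r : V} {P Q : G.Walk b a} (hP : P.IsPath)
    (hQ : Q.IsPath) (hPQ : ∀ z ∈ P.support, z ∈ Q.support → z = a ∨ z = b)
    {R : G.Walk c r} (hR : R.IsPath) (hr : r ∈ P.support)
    (hRP : ∀ z ∈ R.support, z ∈ P.support → z = r)
    (hRQ : ∀ z ∈ R.support, z ∈ Q.support → z = r) :
    ∃ (u v : V) (p : G.Walk u v), p.IsPath ∧ a ∈ p.support ∧ b ∈ p.support ∧ c ∈ p.support := by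
  by_cases hra : r = a
  · subst hra
    refine ⟨c, b, R.append P.reverse, ?_, ?_, ?_, ?_⟩
    · refine append_isPath hR hP.reverse (fun x hx hx' => hRP x hx (by simpa using hx'))
    · rw [Walk.mem_support_append_iff]; left; exact Walk.end_mem_support _
    · exact Walk.end_mem_support _
    · exact Walk.start_mem_support _
  · have hsub := P.support_takeUntil_subset_support hr
    have ha : a ∉ (P.takeUntil r hr).support :=
      Walk.endpoint_notMem_support_takeUntil hP hr (fun h => hra h.symm)
    refine ⟨c, a, R.append ((P.takeUntil r hr).reverse.append Q), ?_, ?_, ?_, ?_⟩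
    · refine append_isPath hR ?_ ?_
      · refine append_isPath (hP.takeUntil hr).reverse hQ ?_
        intro x hx hx'
        have hx1 : x ∈ (P.takeUntil r hr).support := by simpa using hx
        rcases hPQ x (hsub hx1) hx' with h1 | h1
        · subst h1; exact absurd hx1 ha
        · exact h1
      · intro x hx hx'
        rw [Walk.mem_support_append_iff] at hx'
        rcases hx' with hx' | hx'
        · exact hRP x hx (hsub (by simpa using hx'))
        · exact hRQ x hx hx'
    · exact Walk.end_mem_support _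
    · rw [Walk.mem_support_append_iff, Walk.mem_support_append_iff]
      right; right; exact Walk.start_mem_support _
    · exact Walk.start_mem_support _

/-- Three vertices two of which are not separated by a vertex lie on a common path. -/
theorem three_on_path (hG : G.Connected) (a b c : V)
    (hsep : ∀ x, x ≠ a → x ≠ b → ∃ q : G.Walk b a, x ∉ q.support) :
    ∃ (u v : V) (p : G.Walk u v), p.IsPath ∧ a ∈ p.support ∧ b ∈ p.support ∧ c ∈ p.support := by
  classical
  obtain ⟨p0⟩ := hG.preconnected b a
  obtain ⟨P, Q, hP, hQ, hPQ⟩ := whitney p0.bypass (Walk.bypass_isPath _) hsep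
  obtain ⟨R0⟩ := hG.preconnected c a
  obtain ⟨y, hyS, R', hR', hsub, hS⟩ := first_hit {z | z ∈ P.support ∨ z ∈ Q.support} R0
    (Or.inl (Walk.end_mem_support _))
  rcases hyS with hy | hy
  · exact three_step hP hQ hPQ hR' hy (fun z hz hz' => hS z hz (Or.inl hz'))
        (fun z hz hz' => hS z hz (Or.inr hz'))
  · exact three_step hQ hP (fun z hz hz' => hPQ z hz' hz) hR' hy
        (fun z hz hz' => hS z hz (Or.inr hz')) (fun z hz hz' => hS z hz (Or.inl hz'))

/-- a walk leaving `A` towards `B` passes through `x` -/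
theorem mem_of_cross {A B : Set V} {x : V} (hcov : ∀ z, z ∈ A ∨ z ∈ B ∨ z = x)
    (hAB : ∀ z ∈ A, z ∉ B) (hno : ∀ z ∈ A, ∀ t ∈ B, ¬ G.Adj z t) {u w : V} (p : G.Walk u w)
    (hu : u ∈ A) (hw : w ∈ B) : x ∈ p.support := by
  induction p with
  | nil => exact absurd hw (hAB _ hu)
  | @cons u u1 w h p ih =>
    rw [Walk.support_cons, List.mem_cons]
    rcases hcov u1 with h1 | h1 | h1
    · right; exact ih h1 hw
    · exact absurd h (hno _ hu _ h1)
    · right; subst h1; exact Walk.start_mem_support _

theorem sep_aux (hG : G.Connected) {A B : Set V} {x u v : V}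
    (hcov : ∀ z, z ∈ A ∨ z ∈ B ∨ z = x) (hAB : ∀ z ∈ A, z ∉ B)
    (hno : ∀ z ∈ A, ∀ t ∈ B, ¬ G.Adj z t) (hu : u ∈ A)
    (hxv : G.Adj x v) (hB : ∃ t ∈ B, t ≠ v) (D : Finset V) (hD : D.card < 3)
    (huD : u ∈ D) (hdom : ∀ t, t ≠ v → t ∈ D ∨ ∃ d ∈ D, G.Adj t d)
    (hv : ∀ d ∈ D, ¬ G.Adj v d) : HasDominatingPath G := by
  classical
  obtain ⟨t, htB, htv⟩ := hB
  have hxD : x ∉ D := fun h => hv x h hxv.symm
  have key : ∃ w ∈ D, w ∈ B := by
    rcases hdom t htv with h1 | ⟨d, hd, h1⟩
    · exact ⟨t, h1, htB⟩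
    · rcases hcov d with h2 | h2 | h2
      · exact absurd h1.symm (hno d h2 t htB)
      · exact ⟨d, hd, h2⟩
      · subst h2; exact absurd hd hxD
  obtain ⟨w, hwD, hwB⟩ := key
  have huw : u ≠ w := by rintro rfl; exact hAB _ hu hwB
  have hDeq : D = {u, w} := by
    symm
    apply Finset.eq_of_subset_of_card_le
    · intro z hz
      rw [Finset.mem_insert, Finset.mem_singleton] at hz
      rcases hz with rfl | rfl
      · exact huD
      · exact hwD
    · rw [Finset.card_pair huw]; omega
  obtain ⟨p0⟩ := hG.preconnected u w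
  refine ⟨u, w, p0.bypass, Walk.bypass_isPath _, ?_⟩
  have hx : x ∈ p0.bypass.support := mem_of_cross hcov hAB hno _ hu hwB
  intro z hz
  by_cases hzv : z = v
  · subst hzv
    exact ⟨x, hx, hxv.symm⟩
  · have hsub : ∀ d ∈ D, d ∈ p0.bypass.support := by
      intro d hd
      rw [hDeq, Finset.mem_insert, Finset.mem_singleton] at hd
      rcases hd with rfl | rfl
      · exact Walk.start_mem_support _
      · exact Walk.end_mem_support _
    rcases hdom z hzv with h1 | ⟨d, hd, h1⟩
    · exact absurd (hsub z h1) hz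
    · exact ⟨d, hsub d hd, h1⟩

theorem exists_adj_of_walk {A : Set V} {x : V} (hcl : ∀ z ∈ A, ∀ t, G.Adj z t → t = x ∨ t ∈ A)
    {z : V} (p : G.Walk z x) (hz : z ∈ A) (hx : x ∉ A) : ∃ u ∈ A, G.Adj u x := by
  induction p with
  | nil => exact absurd hz hx
  | @cons z z1 x h p ih =>
    rcases hcl z hz z1 h with h1 | h1
    · subst h1; exact ⟨z, hz, h⟩
    · exact ih hcl h1 hx

theorem three_le_of_dominating [Finite V] (h3 : dominationNumber G = 3) (D : Finset V)
    (hD : IsDominating G (D : Set V)) : 3 ≤ D.card := by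
  rw [← h3]
  exact Nat.sInf_le ⟨D, hD, rfl⟩

theorem exists_dominating [Finite V] (G : SimpleGraph V) :
    ∃ D : Finset V, IsDominating G (D : Set V) ∧ D.card = dominationNumber G := by
  have hne : {k | ∃ D : Finset V, IsDominating G (D : Set V) ∧ D.card = k}.Nonempty := by
    have := Fintype.ofFinite V
    exact ⟨_, Finset.univ, fun v hv => absurd (by simp) hv, rfl⟩
  exact Nat.sInf_mem hne

/-- The separation lemma: if a vertex separates `V` in two sides with at least two vertices each
then there is a dominating path. -/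
theorem of_separation [Finite V] (hG : G.Connected) (hc : IsLocalCritical G 3 2) {A B : Set V}
    {x : V} (hcov : ∀ z, z ∈ A ∨ z ∈ B ∨ z = x) (hAB : ∀ z ∈ A, z ∉ B) (hxA : x ∉ A) (hxB : x ∉ B)
    (hno : ∀ z ∈ A, ∀ t ∈ B, ¬ G.Adj z t)
    (hA2 : ∀ v, ∃ t ∈ A, t ≠ v) (hB2 : ∀ v, ∃ t ∈ B, t ≠ v) : HasDominatingPath G := by
  classical
  obtain ⟨h3, hcrit⟩ := hc
  obtain ⟨a0, ha0, -⟩ := hA2 x
  obtain ⟨b0, hb0, -⟩ := hB2 x
  obtain ⟨pa⟩ := hG.preconnected a0 x
  obtain ⟨pb⟩ := hG.preconnected b0 x
  obtain ⟨u, huA, hux⟩ := exists_adj_of_walk (A := A) (x := x) (by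
    intro z hz t ht
    rcases hcov t with h1 | h1 | h1
    · exact Or.inr h1
    · exact absurd ht (hno z hz t h1)
    · exact Or.inl h1) pa ha0 hxA
  obtain ⟨v, hvB, hvx⟩ := exists_adj_of_walk (A := B) (x := x) (by
    intro z hz t ht
    rcases hcov t with h1 | h1 | h1
    · exact absurd ht.symm (hno t h1 z hz)
    · exact Or.inr h1
    · exact Or.inl h1) pb hb0 hxB
  have huv : u ≠ v := by rintro rfl; exact hAB _ huA hvB
  have hnuv : ¬ G.Adj u v := hno u huA v hvB
  have hdist : G.edist u v ≤ (2 : ℕ) := by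
    have := (Walk.cons hux (Walk.cons hvx.symm Walk.nil)).edist_le
    simpa using this
  have hlt := hcrit u v huv hnuv (by exact_mod_cast hdist)
  obtain ⟨D, hD, hDc⟩ := exists_dominating (G ⊔ SimpleGraph.edge u v)
  rw [← hDc] at hlt
  have hnD : ¬ IsDominating G (D : Set V) := fun h => by
    have := three_le_of_dominating h3 D h
    omega
  unfold IsDominating at hnD
  push Not at hnD
  obtain ⟨t, htD, ht⟩ := hnD
  obtain ⟨d, hdD, hd⟩ := hD t htD
  have hd' : ¬ G.Adj t d := ht d hdD
  rw [SimpleGraph.sup_adj] at hd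
  have hedge : (SimpleGraph.edge u v).Adj t d := by
    rcases hd with h | h
    · exact absurd h hd'
    · exact h
  rw [SimpleGraph.edge_adj] at hedge
  have hdomG : ∀ z, z ≠ t → z ∈ D ∨ ∃ e ∈ D, G.Adj z e := by
    intro z hz
    by_cases hzD : z ∈ D
    · exact Or.inl hzD
    · right
      obtain ⟨e, heD, he⟩ := hD z hzD
      rw [SimpleGraph.sup_adj] at he
      rcases he with h | h
      · exact ⟨e, heD, h⟩
      · exfalso
        rw [SimpleGraph.edge_adj] at h
        rcases hedge.1 with ⟨rfl, rfl⟩ | ⟨rfl, rfl⟩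
        · rcases h.1 with ⟨rfl, rfl⟩ | ⟨rfl, rfl⟩
          · exact hz rfl
          · exact hzD hdD
        · rcases h.1 with ⟨rfl, rfl⟩ | ⟨rfl, rfl⟩
          · exact hzD hdD
          · exact hz rfl
  rcases hedge.1 with ⟨h1, h2⟩ | ⟨h1, h2⟩
  · -- `t = u` is undominated, `d = v ∈ D`
    subst h1; subst h2
    exact sep_aux (A := B) (B := A) (x := x) (u := d) (v := t) hG
      (fun z => by rcases hcov z with h | h | h <;> tauto)
      (fun z hz hz' => hAB z hz' hz) (fun z hz t ht h => hno t ht z hz h.symm) hvB hux.symm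
      (hA2 t) D hlt hdD hdomG (fun e he h => ht e he h)
  · subst h1; subst h2
    exact sep_aux (A := A) (B := B) (x := x) (u := d) (v := t) hG hcov hAB hno huA hvx.symm
      (hB2 t) D hlt hdD hdomG (fun e he h => ht e he h)

theorem exists_nonleaf [Finite V] (hG : G.Connected) (h3 : dominationNumber G = 3) (a : V) :
    ∃ a', (∀ z, (z = a ∨ G.Adj z a) → (z = a' ∨ G.Adj z a')) ∧
      ∀ x, ∃ z, z ≠ x ∧ G.Adj a' z := by
  classical
  by_cases h : ∀ x, ∃ z, z ≠ x ∧ G.Adj a z
  · exact ⟨a, fun z hz => hz, h⟩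
  · push Not at h
    obtain ⟨x, hx⟩ := h
    have hx' : ∀ z, G.Adj a z → z = x := by
      intro z hz
      by_contra hne
      exact hx z hne hz
    -- `{a}` is not dominating
    have hnd : ¬ IsDominating G (({a} : Finset V) : Set V) := fun h => by
      have := three_le_of_dominating h3 _ h
      simp at this
    have hne : ∃ t, t ≠ a := by
      by_contra hcon
      push Not at hcon
      exact hnd (fun v hv => absurd (by simpa using hcon v) hv)
    have hax : G.Adj a x := by
      obtain ⟨t, ht⟩ := hne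
      obtain ⟨p⟩ := hG.preconnected a t
      cases p with
      | nil => exact absurd rfl ht
      | cons h' p' => rw [hx' _ h'] at h'; exact h'
    refine ⟨x, ?_, ?_⟩
    · rintro z (rfl | hz)
      · exact Or.inr hax
      · exact Or.inl (hx' z hz.symm)
    · intro y
      by_cases hya : y = a
      · subst hya
        by_contra hcon
        push Not at hcon
        have hx2 : ∀ z, G.Adj x z → z = y := by
          intro z hz
          by_contra hne
          exact hcon z hne hz
        apply hnd
        have hall : ∀ {z t : V} (p : G.Walk z t), (z = y ∨ z = x) → (t = y ∨ t = x) := by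
          intro z t p
          induction p with
          | nil => exact id
          | @cons z z1 t h' p ih =>
            rintro (rfl | rfl)
            · exact ih (Or.inr (hx' _ h'))
            · exact ih (Or.inl (hx2 _ h'))
        intro v hv
        obtain ⟨p⟩ := hG.preconnected y v
        rcases hall p (Or.inl rfl) with h1 | h1
        · exact absurd (by simp [h1]) hv
        · subst h1
          exact ⟨y, by simp, hax.symm⟩
      · exact ⟨a, fun h => hya h.symm, hax.symm⟩

/-- **Theorem.** Every connected `3`-`(γ,2)`-critical graph contains a dominating path. -/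
theorem result {V : Type*} [Finite V] (G : SimpleGraph V) (hG : G.Connected)
    (hc : IsLocalCritical G 3 2) : HasDominatingPath G := by
  classical
  obtain ⟨D, hD, hDc⟩ := exists_dominating G
  rw [hc.1] at hDc
  obtain ⟨a, b, c, hab, hac, hbc, rfl⟩ := Finset.card_eq_three.1 hDc
  obtain ⟨a', ha1, ha2⟩ := exists_nonleaf hG hc.1 a
  obtain ⟨b', hb1, hb2⟩ := exists_nonleaf hG hc.1 b
  have hD' : IsDominating G (({a', b', c} : Finset V) : Set V) := by
    intro v hv
    have hv' : v ≠ a' ∧ v ≠ b' ∧ v ≠ c := by simpa using hv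
    have h1 : (v = a ∨ G.Adj v a) ∨ (v = b ∨ G.Adj v b) ∨ (v = c ∨ G.Adj v c) := by
      by_cases hv2 : v ∈ (({a, b, c} : Finset V) : Set V)
      · have : v = a ∨ v = b ∨ v = c := by simpa using hv2
        tauto
      · obtain ⟨e, he, hve⟩ := hD v hv2
        have : e = a ∨ e = b ∨ e = c := by simpa using he
        rcases this with rfl | rfl | rfl <;> tauto
    rcases h1 with h1 | h1 | h1
    · rcases ha1 v h1 with h2 | h2
      · exact absurd h2 hv'.1
      · exact ⟨a', by simp, h2⟩
    · rcases hb1 v h1 with h2 | h2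
      · exact absurd h2 hv'.2.1
      · exact ⟨b', by simp, h2⟩
    · rcases h1 with h2 | h2
      · exact absurd h2 hv'.2.2
      · exact ⟨c, by simp, h2⟩
  have hab' : a' ≠ b' := by
    rintro rfl
    have h1 := three_le_of_dominating hc.1 _ hD'
    have h2 : ({a', a', c} : Finset V).card ≤ 2 := by
      rw [Finset.insert_eq_of_mem (by simp)]
      exact Finset.card_le_two
    omega
  by_cases hsep : ∀ x, x ≠ a' → x ≠ b' → ∃ q : G.Walk b' a', x ∉ q.support
  · obtain ⟨u, v, p, hp, h1, h2, h3⟩ := three_on_path hG a' b' c hsep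
    refine ⟨u, v, p, hp, ?_⟩
    intro z hz
    have hz' : z ∉ (({a', b', c} : Finset V) : Set V) := by
      intro h
      have : z = a' ∨ z = b' ∨ z = c := by simpa using h
      rcases this with rfl | rfl | rfl
      · exact hz h1
      · exact hz h2
      · exact hz h3
    obtain ⟨e, he, hze⟩ := hD' z hz'
    have : e = a' ∨ e = b' ∨ e = c := by simpa using he
    rcases this with rfl | rfl | rfl
    · exact ⟨_, h1, hze⟩
    · exact ⟨_, h2, hze⟩
    · exact ⟨_, h3, hze⟩
  · push Not at hsep
    obtain ⟨x, hxa, hxb, hx⟩ := hsep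
    -- the side of `b'`
    let A : Set V := {z | ∃ q : G.Walk b' z, x ∉ q.support}
    let B : Set V := {z | z ≠ x ∧ z ∉ A}
    have hxA : x ∉ A := by
      rintro ⟨q, hq⟩
      exact hq (Walk.end_mem_support _)
    have hstep : ∀ z ∈ A, ∀ t, G.Adj z t → t ≠ x → t ∈ A := by
      rintro z ⟨q, hq⟩ t hzt htx
      refine ⟨q.concat hzt, ?_⟩
      intro h
      have h' : x ∈ q.support ∨ x = t := by simpa [Walk.support_concat] using h
      rcases h' with h | h
      · exact hq h
      · exact htx h.symm
    have haB : a' ∈ B := ⟨fun h => hxa h.symm, fun ⟨q, hq⟩ => hq (hx q)⟩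
    have hbA : b' ∈ A := ⟨Walk.nil, by simpa using hxb⟩
    refine of_separation hG hc (A := A) (B := B) (x := x) ?_ ?_ hxA ?_ ?_ ?_ ?_
    · intro z
      by_cases h1 : z ∈ A
      · exact Or.inl h1
      · by_cases h2 : z = x
        · exact Or.inr (Or.inr h2)
        · exact Or.inr (Or.inl ⟨h2, h1⟩)
    · exact fun z hz hz' => hz'.2 hz
    · exact fun h => h.1 rfl
    · intro z hz t ht hzt
      exact ht.2 (hstep z hz t hzt ht.1)
    · intro v
      by_cases hv : b' = v
      · obtain ⟨z, hz1, hz2⟩ := hb2 x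
        exact ⟨z, hstep b' hbA z hz2 hz1, fun h => hz2.ne (hv.trans h.symm)⟩
      · exact ⟨b', hbA, hv⟩
    · intro v
      by_cases hv : a' = v
      · obtain ⟨z, hz1, hz2⟩ := ha2 x
        refine ⟨z, ⟨hz1, ?_⟩, fun h => hz2.ne (hv.trans h.symm)⟩
        intro hzA
        exact haB.2 (hstep z hzA a' hz2.symm haB.1)
      · exact ⟨a', haB, hv⟩

end Pool.Agent.Results.MP_8fbeef_co.DominatingPath
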